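import Pool.Agent.L0h94.SL.Bas
import Pool.Agent.L0h57.SL.Lsg

/-!
# Project SL: (LSB) the odd primes that divide one difference of the roots exactly once
-/

set_option autoImplicit false

namespace Pool.Agent.L0h47.SL

open Finset Pool.Agent.W262.RK Pool.Agent.L0h94.RZ Pool.Agent.L0h94.SL Pool.Agent.L0h57.SL

section

variable {p : ℕ} [hp : Fact p.Prime]

theorem nr_zero_iff (q : ℤ) : nr p q = 0 ↔ IsSquare (q : ZMod p) := by
  have h0 : jacobiSym q p = -1 ↔ ¬ IsSquare (q : ZMod p) := by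
    rw [← jacobiSym.legendreSym.to_jacobiSym, legendreSym.eq_neg_one_iff]
  by_cases h : IsSquare (q : ZMod p)
  · rw [nr, if_neg (fun e => h0.1 e h)]
    exact ⟨fun _ => h, fun _ => rfl⟩
  · rw [nr, if_pos (h0.2 h)]
    exact ⟨fun e => absurd e one_ne_zero, fun e => absurd e h⟩

theorem exists_t {s c : ZMod p} (hs : s ≠ 0) (hc : ¬ IsSquare c) :
    ∃ t : ZMod p, IsSquare t ∧ ¬ IsSquare (t - s) := by
  by_contra hcon
  push Not at hcon
  have h1 : ∀ m : ℕ, IsSquare (-(m : ZMod p) * s) := by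
    intro m
    induction m with
    | zero => exact ⟨0, by simp⟩
    | succ m ih =>
      have := hcon _ ih
      have e : -((m + 1 : ℕ) : ZMod p) * s = -(m : ZMod p) * s - s := by push_cast; ring
      rw [e]
      exact this
  apply hc
  have h2 := h1 (-(c / s)).val
  rw [ZMod.natCast_zmod_val] at h2
  have e : -(-(c / s)) * s = c := by field_simp
  rwa [e] at h2

theorem mem_three {i j k : Fin 3} (hij : i ≠ j) (hik : i ≠ k) (hjk : j ≠ k) (n : Fin 3) :
    n = i ∨ n = j ∨ n = k := by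
  revert hij hik hjk
  fin_cases i <;> fin_cases j <;> fin_cases k <;> fin_cases n <;> simp

theorem prod_three {i j k : Fin 3} (hij : i ≠ j) (hik : i ≠ k) (hjk : j ≠ k) (d : Fin 3 → ℤ) :
    d i * d j * d k = d 0 * d 1 * d 2 := by
  have h : ∀ i j k : Fin 3, i ≠ j → i ≠ k → j ≠ k →
      (i = 0 ∧ j = 1 ∧ k = 2) ∨ (i = 0 ∧ j = 2 ∧ k = 1) ∨ (i = 1 ∧ j = 0 ∧ k = 2) ∨
      (i = 1 ∧ j = 2 ∧ k = 0) ∨ (i = 2 ∧ j = 0 ∧ k = 1) ∨ (i = 2 ∧ j = 1 ∧ k = 0) := by decide
  rcases h i j k hij hik hjk with ⟨rfl, rfl, rfl⟩ | ⟨rfl, rfl, rfl⟩ | ⟨rfl, rfl, rfl⟩ |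
    ⟨rfl, rfl, rfl⟩ | ⟨rfl, rfl, rfl⟩ | ⟨rfl, rfl, rfl⟩ <;> ring

theorem cast_ne {a : ℤ} (h : ¬ (p : ℤ) ∣ a) : (a : ZMod p) ≠ 0 := fun h0 =>
  h ((ZMod.intCast_zmod_eq_zero_iff_dvd _ _).1 h0)

theorem ndvd {a : ℤ} (h : (a : ZMod p) ≠ 0) : ¬ (p : ℤ) ∣ a := fun h0 =>
  h ((ZMod.intCast_zmod_eq_zero_iff_dvd _ _).2 h0)

/-- unit classes -/
theorem unit_case (hp2 : p ≠ 2) (r c : Fin 3 → ℤ) {i j k : Fin 3} (hij : i ≠ j) (hik : i ≠ k)
    (hjk : j ≠ k) (h1 : (p : ℤ) ∣ r i - r j) (h2 : ¬ (p : ℤ) ∣ r i - r k)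
    (hc : ∀ n, ¬ (p : ℤ) ∣ c n) (hk : IsSquare (c k : ZMod p))
    (hprod : IsSquare ((c i : ZMod p) * (c j : ZMod p))) : LocSol ℚ_[p] r c := by
  have hp0 : ((p : ℕ) : ℚ_[p]) ≠ 0 := by exact_mod_cast hp.out.ne_zero
  have hpz : ((p : ℕ) : ZMod p) = 0 := ZMod.natCast_self p
  have hij' : (r i : ZMod p) = (r j : ZMod p) := by
    have := (ZMod.intCast_zmod_eq_zero_iff_dvd _ _).2 h1
    push_cast at this
    exact sub_eq_zero.1 this
  by_cases hi : IsSquare (c i : ZMod p)
  · have hj : IsSquare (c j : ZMod p) := by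
      obtain ⟨a, ha⟩ := hi
      obtain ⟨b, hb⟩ := hprod
      have hci : (c i : ZMod p) ≠ 0 := cast_ne (hc i)
      have ha0 : a ≠ 0 := by
        rintro rfl
        exact hci (by rw [ha, mul_zero])
      refine ⟨b / a, ?_⟩
      rw [div_mul_div_comm, ← hb, ← ha]
      field_simp
    have hall : ∀ n, IsSquare (c n : ZMod p) := by
      intro n
      rcases mem_three hij hik hjk n with rfl | rfl | rfl
      · exact hi
      · exact hj
      · exact hk
    refine ⟨1 / (p : ℚ_[p]) ^ 2, fun n => ?_⟩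
    have e1 : ((1 - r n * (p : ℤ) ^ 2 : ℤ) : ZMod p) = 1 := by
      push_cast
      rw [hpz]
      ring
    obtain ⟨z, hz, hz2⟩ := sqd hp2 (x := 1 - r n * (p : ℤ) ^ 2) (d := c n)
      (ndvd (by rw [e1]; exact one_ne_zero)) (hc n) (by
        rw [Int.cast_mul, e1, one_mul]
        exact hall n)
    refine ⟨z / p, div_ne_zero hz hp0, ?_⟩
    push_cast at hz2
    rw [div_pow, ← mul_div_assoc, ← hz2]
    field_simp
  · have hj : ¬ IsSquare (c j : ZMod p) := by
      intro hj
      apply hi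
      obtain ⟨a, ha⟩ := hj
      obtain ⟨b, hb⟩ := hprod
      have hcj : (c j : ZMod p) ≠ 0 := cast_ne (hc j)
      have ha0 : a ≠ 0 := by
        rintro rfl
        exact hcj (by rw [ha, mul_zero])
      refine ⟨b / a, ?_⟩
      rw [div_mul_div_comm, ← hb, ← ha]
      field_simp
    obtain ⟨t, ht, hts⟩ := exists_t (s := ((r i - r k : ℤ) : ZMod p)) (cast_ne h2) hi
    have hts0 : t - ((r i - r k : ℤ) : ZMod p) ≠ 0 := by
      intro h0
      rw [h0] at hts
      exact hts ⟨0, by ring⟩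
    have main : ∀ x : ℤ, (x : ZMod p) = (r k : ZMod p) + t →
        (∃ z : ℚ_[p], z ≠ 0 ∧ ((x - r k : ℤ) : ℚ_[p]) = (c k : ℚ_[p]) * z ^ 2) →
        LocSol ℚ_[p] r c := by
      intro x hx hxk
      refine ⟨(x : ℚ_[p]), fun n => ?_⟩
      have e1 : ((x - r i : ℤ) : ZMod p) = t - ((r i - r k : ℤ) : ZMod p) := by
        push_cast
        rw [hx]
        ring
      have e2 : ((x - r j : ℤ) : ZMod p) = t - ((r i - r k : ℤ) : ZMod p) := by
        push_cast
        rw [hx, ← hij']
        ring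
      rcases mem_three hij hik hjk n with rfl | rfl | rfl
      · obtain ⟨z, hz, hz2⟩ := sqd hp2 (x := x - r n) (d := c n) (ndvd (by rw [e1]; exact hts0))
          (hc n) (by
            rw [Int.cast_mul, e1]
            exact sq_mul hts hi)
        exact ⟨z, hz, by rw [← hz2]; push_cast; rfl⟩
      · obtain ⟨z, hz, hz2⟩ := sqd hp2 (x := x - r n) (d := c n) (ndvd (by rw [e2]; exact hts0))
          (hc n) (by
            rw [Int.cast_mul, e2]
            exact sq_mul hts hj)
        exact ⟨z, hz, by rw [← hz2]; push_cast; rfl⟩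
      · obtain ⟨z, hz, hz2⟩ := hxk
        exact ⟨z, hz, by rw [← hz2]; push_cast; rfl⟩
    by_cases ht0 : t = 0
    · refine main (r k + c k * (p : ℤ) ^ 2) ?_ ⟨p, hp0, ?_⟩
      · push_cast
        rw [hpz, ht0]
        ring
      · push_cast
        ring
    · have hT : (((t.val : ℕ) : ℤ) : ZMod p) = t := by
        rw [Int.cast_natCast, ZMod.natCast_zmod_val]
      refine main (r k + (t.val : ℕ)) ?_ ?_
      · push_cast
        rw [ZMod.natCast_zmod_val]
      · have e : r k + ((t.val : ℕ) : ℤ) - r k = ((t.val : ℕ) : ℤ) := by ring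
        rw [e]
        refine sqd hp2 (ndvd (by rw [hT]; exact ht0)) (hc k) ?_
        rw [Int.cast_mul, hT]
        exact ht.mul hk

theorem sq_mul' {u v : ZMod p} (h : IsSquare u ↔ IsSquare v) : IsSquare (u * v) := by
  by_cases hu : IsSquare u
  · exact hu.mul (h.1 hu)
  · exact sq_mul hu (fun hv => hu (h.2 hv))

end

theorem lsb : S_LSB := by
  intro p hp hp2 r d i j k hij hik hjk h1 h1' h2 hsf hsq hk hiff hnr
  have hp0 : ((p : ℕ) : ℚ_[p]) ≠ 0 := by exact_mod_cast hp.out.ne_zero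
  have hpp : (p : ℤ) ≠ 0 := by exact_mod_cast hp.out.ne_zero
  obtain ⟨s, hs⟩ := hsq
  rw [← prod_three hij hik hjk] at hs
  have hcast : ∀ a : ℤ, ¬ (p : ℤ) ∣ a → (a : ZMod p) ≠ 0 := fun a ha => cast_ne ha
  by_cases hi : (p : ℤ) ∣ d i
  · -- the second case
    have hj : (p : ℤ) ∣ d j := hiff.1 hi
    rw [if_pos hi] at hnr
    obtain ⟨a, ha⟩ := hi
    obtain ⟨b, hb⟩ := hj
    obtain ⟨m, hm⟩ := h1
    have hpr : Prime (p : ℤ) := Nat.prime_iff_prime_int.1 hp.out
    have na : ¬ (p : ℤ) ∣ a := by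
      rintro ⟨y, rfl⟩
      exact hpr.not_isUnit (hsf i p ⟨y, by rw [ha]; ring⟩)
    have nb : ¬ (p : ℤ) ∣ b := by
      rintro ⟨y, rfl⟩
      exact hpr.not_isUnit (hsf j p ⟨y, by rw [hb]; ring⟩)
    have nm : ¬ (p : ℤ) ∣ m := by
      rintro ⟨y, rfl⟩
      exact h1' ⟨y, by rw [hm]; ring⟩
    set q : ℤ := r i - r k with hq
    -- the classes
    let c : Fin 3 → ℤ := fun n => if n = i then a * m * q else if n = j then b * m else d k * q
    have ci : c i = a * m * q := if_pos rfl
    have cj : c j = b * m := by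
      show (if j = i then a * m * q else if j = j then b * m else d k * q) = b * m
      rw [if_neg (Ne.symm hij), if_pos rfl]
    have ck : c k = d k * q := by
      show (if k = i then a * m * q else if k = j then b * m else d k * q) = d k * q
      rw [if_neg (Ne.symm hik), if_neg (Ne.symm hjk)]
    have hc : ∀ n, ¬ (p : ℤ) ∣ c n := by
      intro n
      rcases mem_three hij hik hjk n with rfl | rfl | rfl
      · rw [ci]
        intro h
        rcases hpr.dvd_or_dvd h with h | h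
        · exact (hpr.dvd_or_dvd h).elim na nm
        · exact h2 h
      · rw [cj]
        intro h
        exact (hpr.dvd_or_dvd h).elim nb nm
      · rw [ck]
        intro h
        exact (hpr.dvd_or_dvd h).elim hk h2
    have hck : IsSquare (c k : ZMod p) := by
      rw [ck, Int.cast_mul]
      apply sq_mul'
      rw [← nr_zero_iff, ← nr_zero_iff, hnr]
    -- the product
    obtain ⟨s', hs'⟩ : (p : ℤ) ∣ s := by
      have : (p : ℤ) ∣ s * s := by
        rw [← hs, ha]
        exact ⟨a * d j * d k, by ring⟩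
      exact (hpr.dvd_or_dvd this).elim id id
    have hab : a * b * d k = s' * s' := by
      have h : ((p : ℤ) * p) * (a * b * d k) = ((p : ℤ) * p) * (s' * s') := by
        have h3 := hs
        rw [ha, hb, hs'] at h3
        linear_combination h3
      exact mul_left_cancel₀ (mul_ne_zero hpp hpp) h
    have hprod : IsSquare ((c i : ZMod p) * (c j : ZMod p)) := by
      have hdk : ((d k : ℤ) : ZMod p) ≠ 0 := cast_ne hk
      obtain ⟨v, hv⟩ := hck
      have hv0 : v ≠ 0 := by
        rintro rfl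
        exact cast_ne (hc k) (by rw [hv, mul_zero])
      have e0 : (c i : ZMod p) * (c j : ZMod p) * (c k : ZMod p) =
          ((s' * m * q : ℤ) : ZMod p) * ((s' * m * q : ℤ) : ZMod p) := by
        rw [ci, cj, ck]
        have e1 : (a * m * q) * (b * m) * (d k * q) = (s' * m * q) * (s' * m * q) := by
          linear_combination (m * m * q * q) * hab
        have := congrArg (Int.cast : ℤ → ZMod p) e1
        push_cast at this ⊢
        exact this
      refine ⟨((s' * m * q : ℤ) : ZMod p) / v, ?_⟩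
      rw [div_mul_div_comm, ← e0, ← hv]
      have := cast_ne (hc k)
      field_simp
    have hloc := unit_case hp2 r c hij hik hjk ⟨m, hm⟩ h2 hc hck hprod
    rw [locSol_iff] at hloc ⊢
    have hrij : (r i : ℚ_[p]) ≠ (r j : ℚ_[p]) := by
      intro h0
      have h3 : r i = r j := by exact_mod_cast h0
      apply h1'
      rw [h3, sub_self]
      exact dvd_zero _
    have hrik : (r i : ℚ_[p]) ≠ (r k : ℚ_[p]) := by
      intro h0
      have h3 : r i = r k := by exact_mod_cast h0
      apply h2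
      rw [hq, h3, sub_self]
      exact dvd_zero _
    have hne : ∀ n, ((c n : ℤ) : ℚ_[p]) ≠ 0 := by
      intro n h0
      have h3 : c n = 0 := by exact_mod_cast h0
      exact hc n (by rw [h3]; exact dvd_zero _)
    have hs0 : s' ≠ 0 := by
      rintro rfl
      rw [mul_zero] at hab
      rcases mul_eq_zero.1 hab with h | h
      · rcases mul_eq_zero.1 h with h | h
        · exact na (by rw [h]; exact dvd_zero _)
        · exact nb (by rw [h]; exact dvd_zero _)
      · exact hk (by rw [h]; exact dvd_zero _)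
    have hm0 : (m : ℚ_[p]) ≠ 0 := by
      intro h0
      have h3 : m = 0 := by exact_mod_cast h0
      exact nm (by rw [h3]; exact dvd_zero _)
    have hq0 : (q : ℚ_[p]) ≠ 0 := by
      intro h0
      have h3 : q = 0 := by exact_mod_cast h0
      exact h2 (by rw [h3]; exact dvd_zero _)
    have hs0' : (s' : ℚ_[p]) ≠ 0 := by exact_mod_cast hs0
    have ht := tcl (K := ℚ_[p]) (r := fun n => (r n : ℚ_[p])) (c := fun n => (c n : ℚ_[p]))
      hij hik hjk hrij hrik ⟨(s' : ℚ_[p]) * m * q, mul_ne_zero (mul_ne_zero hs0' hm0) hq0, by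
        show (c i : ℚ_[p]) * (c j : ℚ_[p]) * (c k : ℚ_[p]) = _
        rw [ci, cj, ck]
        have h3 : (a : ℚ_[p]) * b * d k = s' * s' := by exact_mod_cast hab
        push_cast
        linear_combination ((m : ℚ_[p]) * m * q * q) * h3⟩ hloc
    have hrm : (r i : ℚ_[p]) - (r j : ℚ_[p]) = p * m := by exact_mod_cast hm
    have hrq : (r i : ℚ_[p]) - (r k : ℚ_[p]) = q := by rw [hq]; push_cast; rfl
    have hdi : (d i : ℚ_[p]) = p * a := by exact_mod_cast ha
    have hdj : (d j : ℚ_[p]) = p * b := by exact_mod_cast hb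
    refine sqc ht fun n => ?_
    rcases mem_three hij hik hjk n with rfl | rfl | rfl
    · refine ⟨(m : ℚ_[p]) * q, mul_ne_zero hm0 hq0, ?_⟩
      simp only [if_true]
      rw [ci, hrm, hrq, hdi]
      push_cast
      ring
    · refine ⟨(m : ℚ_[p]), hm0, ?_⟩
      simp only [if_neg (Ne.symm hij)]
      rw [cj, hrm, hdj]
      push_cast
      ring
    · refine ⟨(q : ℚ_[p]), hq0, ?_⟩
      simp only [if_neg (Ne.symm hik)]
      rw [ck, hrq]
      push_cast
      ring
  · -- the first case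
    rw [if_neg hi] at hnr
    have hj : ¬ (p : ℤ) ∣ d j := fun h => hi (hiff.2 h)
    have hd : ∀ n, ¬ (p : ℤ) ∣ d n := by
      intro n
      rcases mem_three hij hik hjk n with rfl | rfl | rfl
      · exact hi
      · exact hj
      · exact hk
    have hdk := (nr_zero_iff (p := p) (d k)).1 hnr
    refine unit_case hp2 r d hij hik hjk h1 h2 hd hdk ?_
    obtain ⟨v, hv⟩ := hdk
    have hv0 : v ≠ 0 := by
      rintro rfl
      exact cast_ne hk (by rw [hv, mul_zero])
    refine ⟨(s : ZMod p) / v, ?_⟩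
    have e0 : (d i : ZMod p) * (d j : ZMod p) * (d k : ZMod p) = (s : ZMod p) * (s : ZMod p) := by
      exact_mod_cast congrArg (Int.cast : ℤ → ZMod p) hs
    rw [div_mul_div_comm, ← e0, ← hv]
    have := cast_ne hk
    field_simp

end Pool.Agent.L0h47.SL
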